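import Pool.Agent.Helper4.FS.Det

/-! Project FS (MP_75608d_al), split lemma for the middle levels: for fixed constants a fresh
generator rarely sends many tokens into prescribed small sets. -/

set_option linter.unusedVariables false

namespace Pool.Agent.Helper11.FS

open Equiv Pool.Agent.Helper4.FS

variable {q n : ℕ}

section

variable {N s : ℕ} (a : ℕ → Perm (Fin n)) (g : ℕ → Option (Lt q)) (x : Fin s → Fin n)

/-- the position of the token of `k` before the slot of `k` -/
def qp (y : World q n) (k : Fin N ×ₗ Fin s) : Fin n :=
  pos (prog a g) y 0 (x (ofLex k).2) (2 * (ofLex k).1.val + 1)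

/-- the position of the token of `k` after the slot of `k` -/
def rp (y : World q n) (k : Fin N ×ₗ Fin s) : Fin n :=
  pos (prog a g) y 0 (x (ofLex k).2) (2 * (ofLex k).1.val + 2)

/-- the edge crossed by the token of `k` in the slot of `k` -/
def eo (y : World q n) (k : Fin N ×ₗ Fin s) : Option (Fin q × Fin n) :=
  (g (ofLex k).1.val).map (fun m => ed y m (qp a g x y k))

/-- the edges crossed before `k` (slot by slot, in each slot token by token) -/
def Kn (y : World q n) (k : Fin N ×ₗ Fin s) : Finset (Fin q × Fin n) :=
  (Finset.univ.filter (fun k' : Fin N ×ₗ Fin s => k' < k)).biUnion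
    (fun k' => (eo a g x y k').toFinset)

/-- the crossing `k` is a crossing of an edge which was not crossed before -/
def New (y : World q n) (k : Fin N ×ₗ Fin s) : Prop :=
  ∃ m, g (ofLex k).1.val = some m ∧ ed y m (qp a g x y k) ∉ Kn a g x y k

/-- the crossing `k` is new and ends in `Φ` -/
def Hit (Φ : ℕ → Finset (Fin n)) (y : World q n) (k : Fin N ×ₗ Fin s) : Prop :=
  New a g x y k ∧ rp a g x y k ∈ Φ (ofLex k).1.val

variable {a g x}

lemma mem_Kn {y : World q n} {k : Fin N ×ₗ Fin s} {e : Fin q × Fin n} :
    e ∈ Kn a g x y k ↔ ∃ k' < k, ∃ m, g (ofLex k').1.val = some m ∧ ed y m (qp a g x y k') = e := by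
  simp only [Kn, Finset.mem_biUnion, Finset.mem_filter, Finset.mem_univ, true_and, eo,
    Option.mem_toFinset, Option.mem_def, Option.map_eq_some_iff]

lemma card_Kn_le (y : World q n) (k : Fin N ×ₗ Fin s) : (Kn a g x y k).card ≤ s * N := by
  unfold Kn
  refine Finset.card_biUnion_le.trans ?_
  calc ∑ k' ∈ Finset.univ.filter (fun k' : Fin N ×ₗ Fin s => k' < k), (eo a g x y k').toFinset.card
      ≤ ∑ k' ∈ Finset.univ.filter (fun k' : Fin N ×ₗ Fin s => k' < k), 1 := by
        refine Finset.sum_le_sum fun k' _ => ?_
        rcases eo a g x y k' with _ | e <;> simp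
    _ ≤ s * N := by
        rw [Finset.sum_const, smul_eq_mul, mul_one]
        refine (Finset.card_filter_le _ _).trans ?_
        rw [Finset.card_univ]
        have : Fintype.card (Fin N ×ₗ Fin s) = Fintype.card (Fin N × Fin s) := rfl
        rw [this, Fintype.card_prod, Fintype.card_fin, Fintype.card_fin, mul_comm]

/-- the steps of the path of a token which are letters -/
lemma uses_odd {y : World q n} {z : Fin n} {T : ℕ} {e : Fin q × Fin n}
    (h : Uses (prog a g) y 0 z T e) :
    ∃ v, 2 * v + 1 < T ∧ ∃ m, g v = some m ∧ ed y m (pos (prog a g) y 0 z (2 * v + 1)) = e := by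
  obtain ⟨t, ht, m, hm, he⟩ := h
  rw [zero_add] at hm
  rcases Nat.even_or_odd' t with ⟨v, rfl | rfl⟩
  · rw [prog_even] at hm
    cases hm
  · rcases hg : g v with _ | m'
    · rw [prog_odd_none hg] at hm
      cases hm
    · rw [prog_odd_some hg] at hm
      cases hm
      exact ⟨v, ht, m, hg, he⟩

lemma not_uses_qp {y : World q n} {k k' : Fin N ×ₗ Fin s} (hk : k' ≤ k) {e : Fin q × Fin n}
    (he : e ∉ Kn a g x y k) :
    ¬ Uses (prog a g) y 0 (x (ofLex k').2) (2 * (ofLex k').1.val + 1) e := by
  intro h
  obtain ⟨v, hv, m, hm, hed⟩ := uses_odd h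
  apply he
  rw [mem_Kn]
  have hvN : v < N := by
    have := (ofLex k').1.isLt
    omega
  refine ⟨toLex (⟨v, hvN⟩, (ofLex k').2), ?_, m, hm, hed⟩
  refine lt_of_lt_of_le ?_ hk
  rw [Prod.Lex.lt_iff]
  left
  show (⟨v, hvN⟩ : Fin N) < (ofLex k').1
  rw [Fin.lt_def]
  show v < _
  omega

lemma not_uses_rp {y : World q n} {k k' : Fin N ×ₗ Fin s} (hk : k' < k) {e : Fin q × Fin n}
    (he : e ∉ Kn a g x y k) :
    ¬ Uses (prog a g) y 0 (x (ofLex k').2) (2 * (ofLex k').1.val + 2) e := by
  intro h
  obtain ⟨v, hv, m, hm, hed⟩ := uses_odd h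
  apply he
  rw [mem_Kn]
  have hvN : v < N := by
    have := (ofLex k').1.isLt
    omega
  refine ⟨toLex (⟨v, hvN⟩, (ofLex k').2), ?_, m, hm, hed⟩
  refine lt_of_le_of_lt ?_ hk
  rw [Prod.Lex.le_iff]
  rcases Nat.lt_or_ge v (ofLex k').1.val with h1 | h1
  · left
    exact Fin.lt_def.2 h1
  · right
    refine ⟨?_, le_rfl⟩
    show (⟨v, hvN⟩ : Fin N) = (ofLex k').1
    ext
    show v = _
    omega

variable (a g x)

/-- exchanging two edges not crossed before `k` changes nothing before `k` -/
lemma qp_sw {y : World q n} {k k' : Fin N ×ₗ Fin s} (hk : k' ≤ k) {j : Fin q} {r u : Fin n}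
    (hr : (j, r) ∉ Kn a g x y k) (hu : (j, u) ∉ Kn a g x y k) :
    qp a g x (sw y j r u) k' = qp a g x y k' :=
  pos_sw _ (not_uses_qp hk hr) (not_uses_qp hk hu)

lemma rp_sw {y : World q n} {k k' : Fin N ×ₗ Fin s} (hk : k' < k) {j : Fin q} {r u : Fin n}
    (hr : (j, r) ∉ Kn a g x y k) (hu : (j, u) ∉ Kn a g x y k) :
    rp a g x (sw y j r u) k' = rp a g x y k' :=
  pos_sw _ (not_uses_rp hk hr) (not_uses_rp hk hu)

lemma ed_sw {y : World q n} {k k' : Fin N ×ₗ Fin s} (hk : k' < k) {j : Fin q} {r u : Fin n}
    (hr : (j, r) ∉ Kn a g x y k) (hu : (j, u) ∉ Kn a g x y k) {m : Lt q}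
    (hm : g (ofLex k').1.val = some m) :
    ed (sw y j r u) m (qp a g x (sw y j r u) k') = ed y m (qp a g x y k') := by
  rw [qp_sw a g x hk.le hr hu]
  have h1 : ed y m (qp a g x y k') ∈ Kn a g x y k := mem_Kn.2 ⟨k', hk, m, hm, rfl⟩
  exact (lp_sw (fun h => hr (h ▸ h1)) (fun h => hu (h ▸ h1))).2

lemma Kn_sw {y : World q n} {k k' : Fin N ×ₗ Fin s} (hk : k' ≤ k) {j : Fin q} {r u : Fin n}
    (hr : (j, r) ∉ Kn a g x y k) (hu : (j, u) ∉ Kn a g x y k) :
    Kn a g x (sw y j r u) k' = Kn a g x y k' := by
  ext e
  simp only [mem_Kn]
  constructor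
  · rintro ⟨k'', h1, m, h2, h3⟩
    refine ⟨k'', h1, m, h2, ?_⟩
    rwa [ed_sw a g x (h1.trans_le hk) hr hu h2] at h3
  · rintro ⟨k'', h1, m, h2, h3⟩
    refine ⟨k'', h1, m, h2, ?_⟩
    rwa [ed_sw a g x (h1.trans_le hk) hr hu h2]

lemma Hit_sw (Φ : ℕ → Finset (Fin n)) {y : World q n} {k k' : Fin N ×ₗ Fin s} (hk : k' < k)
    {j : Fin q} {r u : Fin n}
    (hr : (j, r) ∉ Kn a g x y k) (hu : (j, u) ∉ Kn a g x y k) (h : Hit a g x Φ y k') :
    Hit a g x Φ (sw y j r u) k' := by
  obtain ⟨⟨m, hm, hn⟩, hp⟩ := h
  refine ⟨⟨m, hm, ?_⟩, ?_⟩
  · rw [ed_sw a g x hk hr hu hm, Kn_sw a g x hk.le hr hu]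
    exact hn
  · rw [rp_sw a g x hk hr hu]
    exact hp

lemma rp_eq {y : World q n} {k : Fin N ×ₗ Fin s} {m : Lt q} (hm : g (ofLex k).1.val = some m) :
    rp a g x y k = lp y m (qp a g x y k) := pos_odd_some hm y _

/-- recovering the other source from the exchanged world -/
lemma recover {y Y : World q n} {m : Lt q} {p c : Fin n} {u : Fin n}
    (hY : Y = sw y m.1 (ed y m p).2 u) (hc : lp y m p = c) :
    (ed y m p).2 = (if m.2 then p else c) ∧ u = (if m.2 then (Y m.1)⁻¹ c else (Y m.1)⁻¹ p) := by
  obtain ⟨j, σ⟩ := m
  cases σ
  · have h1 : (y j)⁻¹ p = c := by simpa [Pool.Agent.Helper4.FS.lp] using hc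
    refine ⟨by simpa [ed] using h1, ?_⟩
    have h2 : y j c = p := by rw [← h1]; simp
    have h3 : (ed y (j, false) p).2 = c := by simpa [ed] using h1
    rw [h3] at hY
    simp only [Bool.false_eq_true, if_false]
    rw [eq_comm, Perm.inv_eq_iff_eq, hY]
    simp [sw, h2]
  · have h1 : y j p = c := by simpa [Pool.Agent.Helper4.FS.lp] using hc
    refine ⟨by simp [ed], ?_⟩
    have h3 : (ed y (j, true) p).2 = p := by simp [ed]
    rw [h3] at hY
    simp only [if_true]
    rw [eq_comm, Perm.inv_eq_iff_eq, hY]
    simp [sw, h1]

open Classical in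
/-- **hits at prescribed places**: the proportion of the worlds in which all crossings of `H` are
new and end in the prescribed sets is at most `(φ/(n-sN))^|H|` -/
theorem hits_fixed (Φ : ℕ → Finset (Fin n)) (φ : ℕ) (hΦ : ∀ v, (Φ v).card ≤ φ)
    (H : Finset (Fin N ×ₗ Fin s)) :
    ((Finset.univ : Finset (World q n)).filter (fun y => ∀ k ∈ H, Hit a g x Φ y k)).card *
      (n - s * N) ^ H.card ≤ φ ^ H.card * (Finset.univ : Finset (World q n)).card := by
  induction H using Finset.induction_on_max with
  | empty => simp
  | insert k H hk ih =>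
    have hkH : k ∉ H := fun h => lt_irrefl _ (hk k h)
    rw [Finset.card_insert_of_notMem hkH]
    set A := (Finset.univ : Finset (World q n)).filter
      (fun y => ∀ k' ∈ insert k H, Hit a g x Φ y k') with hA
    set B := (Finset.univ : Finset (World q n)).filter (fun y => ∀ k' ∈ H, Hit a g x Φ y k') with hB
    have key : A.card * (n - s * N) ≤ B.card * φ := by
      rcases hg : g (ofLex k).1.val with _ | m
      · have : A = ∅ := by
          rw [hA, Finset.filter_eq_empty_iff]
          intro y _ h
          obtain ⟨⟨m, hm, _⟩, _⟩ := h k (Finset.mem_insert_self _ _)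
          rw [hg] at hm
          cases hm
        rw [this]
        simp
      · let U : World q n → Finset (Fin n) := fun y =>
          Finset.univ.filter (fun u => (m.1, u) ∉ Kn a g x y k)
        have hUcard : ∀ y, n - s * N ≤ (U y).card := by
          intro y
          have h1 : (Finset.univ.filter (fun u : Fin n => (m.1, u) ∈ Kn a g x y k)).card ≤
              (Kn a g x y k).card := by
            refine Finset.card_le_card_of_injOn (fun u => (m.1, u)) ?_ ?_
            · intro u hu
              simpa using hu
            · intro u _ v _ h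
              simpa using h
          have h2 : (Kn a g x y k).card ≤ s * N := card_Kn_le y k
          have h3 := Finset.card_filter_add_card_filter_not (s := (Finset.univ : Finset (Fin n)))
            (fun u : Fin n => (m.1, u) ∈ Kn a g x y k)
          simp only [Finset.card_univ, Fintype.card_fin] at h3
          have h4 : (U y).card =
            (Finset.univ.filter (fun u : Fin n => ¬ (m.1, u) ∈ Kn a g x y k)).card := rfl
          omega
        have hsig : (A.sigma U).card ≤ (B ×ˢ Φ (ofLex k).1.val).card := by
          refine Finset.card_le_card_of_injOn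
            (fun yu : (Σ _ : World q n, Fin n) =>
              (sw yu.1 m.1 (ed yu.1 m (qp a g x yu.1 k)).2 yu.2, rp a g x yu.1 k)) ?_ ?_
          · rintro ⟨y, u⟩ h
            rw [Finset.mem_coe, Finset.mem_sigma] at h
            obtain ⟨hy, hu⟩ := h
            simp only [hA, Finset.mem_filter, Finset.mem_univ, true_and] at hy
            simp only [U, Finset.mem_filter, Finset.mem_univ, true_and] at hu
            obtain ⟨⟨m', hm', hn⟩, hp⟩ := hy k (Finset.mem_insert_self _ _)
            rw [hg] at hm'
            cases hm'
            have hr : (m.1, (ed y m (qp a g x y k)).2) ∉ Kn a g x y k := by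
              have : (m.1, (ed y m (qp a g x y k)).2) = ed y m (qp a g x y k) := by simp [ed]
              rw [this]; exact hn
            simp only [Finset.coe_product, Set.mem_prod, Finset.mem_coe]
            refine ⟨?_, hp⟩
            simp only [hB, Finset.mem_filter, Finset.mem_univ, true_and]
            intro k' hk'
            exact Hit_sw a g x Φ (hk k' hk') hr hu (hy k' (Finset.mem_insert_of_mem hk'))
          · rintro ⟨y, u⟩ h ⟨y', u'⟩ h' heq
            rw [Finset.mem_coe, Finset.mem_sigma] at h h'
            obtain ⟨hy, hu⟩ := h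
            obtain ⟨hy', hu'⟩ := h'
            simp only [hA, Finset.mem_filter, Finset.mem_univ, true_and] at hy hy'
            simp only [U, Finset.mem_filter, Finset.mem_univ, true_and] at hu hu'
            obtain ⟨⟨m1, hm1, hn⟩, hp⟩ := hy k (Finset.mem_insert_self _ _)
            rw [hg] at hm1
            cases hm1
            obtain ⟨⟨m2, hm2, hn'⟩, hp'⟩ := hy' k (Finset.mem_insert_self _ _)
            rw [hg] at hm2
            cases hm2
            simp only [Prod.mk.injEq] at heq
            obtain ⟨heq1, heq2⟩ := heq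
            have hr : (m.1, (ed y m (qp a g x y k)).2) ∉ Kn a g x y k := by
              have : (m.1, (ed y m (qp a g x y k)).2) = ed y m (qp a g x y k) := by simp [ed]
              rw [this]; exact hn
            have hr' : (m.1, (ed y' m (qp a g x y' k)).2) ∉ Kn a g x y' k := by
              have : (m.1, (ed y' m (qp a g x y' k)).2) = ed y' m (qp a g x y' k) := by simp [ed]
              rw [this]; exact hn'
            have e1 := qp_sw a g x (le_refl k) hr hu
            have e2 := qp_sw a g x (le_refl k) hr' hu'
            rw [heq1] at e1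
            have hqp : qp a g x y k = qp a g x y' k := by rw [← e1, e2]
            have hc := rp_eq a g x (y := y) hg
            have hc' := rp_eq a g x (y := y') hg
            set Y := sw y m.1 (ed y m (qp a g x y k)).2 u with hY
            have R1 := recover (p := qp a g x y k) (c := rp a g x y k) hY hc.symm
            have R2 := recover (p := qp a g x y' k) (c := rp a g x y' k) heq1 hc'.symm
            rw [← hqp, ← heq2] at R2
            rw [← hqp] at heq1
            have hu2 : u = u' := by rw [R1.2, R2.2]
            have hr2 : (ed y m (qp a g x y k)).2 = (ed y' m (qp a g x y k)).2 := by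
              rw [R1.1, R2.1]
            have hyy : y = y' := by
              have h1 : sw Y m.1 (ed y m (qp a g x y k)).2 u = y := by rw [hY, sw_sw]
              have h2 : sw Y m.1 (ed y' m (qp a g x y k)).2 u' = y' := by rw [heq1, sw_sw]
              rw [← h1, ← h2, hr2, hu2]
            subst hyy
            subst hu2
            rfl
        calc A.card * (n - s * N) = ∑ y ∈ A, (n - s * N) := by
              rw [Finset.sum_const, smul_eq_mul]
          _ ≤ ∑ y ∈ A, (U y).card := Finset.sum_le_sum fun y _ => hUcard y
          _ = (A.sigma U).card := (Finset.card_sigma _ _).symm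
          _ ≤ (B ×ˢ Φ (ofLex k).1.val).card := hsig
          _ = B.card * (Φ (ofLex k).1.val).card := Finset.card_product _ _
          _ ≤ B.card * φ := Nat.mul_le_mul_left _ (hΦ _)
    calc A.card * (n - s * N) ^ (H.card + 1)
        = (A.card * (n - s * N)) * (n - s * N) ^ H.card := by ring
      _ ≤ (B.card * φ) * (n - s * N) ^ H.card := Nat.mul_le_mul_right _ key
      _ = (B.card * (n - s * N) ^ H.card) * φ := by ring
      _ ≤ (φ ^ H.card * (Finset.univ : Finset (World q n)).card) * φ := Nat.mul_le_mul_right _ ih
      _ = φ ^ (H.card + 1) * (Finset.univ : Finset (World q n)).card := by ring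

open Classical in
/-- the non-lazy pairs (slot, token) -/
noncomputable def NL (N s : ℕ) (g : ℕ → Option (Lt q)) : Finset (Fin N ×ₗ Fin s) :=
  Finset.univ.filter (fun k => g (ofLex k).1.val ≠ none)

open Classical in
lemma card_NL : (NL N s g).card = s * ((Finset.range N).filter (fun v => g v ≠ none)).card := by
  have h1 : (NL N s g).card =
      (((Finset.range N).filter (fun v => g v ≠ none)) ×ˢ (Finset.univ : Finset (Fin s))).card := by
    refine Finset.card_bij (fun k _ => ((ofLex k).1.val, (ofLex k).2)) ?_ ?_ ?_
    · intro k hk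
      simp only [NL, Finset.mem_filter, Finset.mem_univ, true_and] at hk
      simp only [Finset.mem_product, Finset.mem_filter, Finset.mem_range, Finset.mem_univ, and_true]
      exact ⟨(ofLex k).1.isLt, hk⟩
    · intro k _ k' _ h
      simp only [Prod.mk.injEq] at h
      have h2 : ofLex k = ofLex k' := Prod.ext (Fin.ext h.1) h.2
      exact ofLex.injective h2
    · rintro ⟨v, l⟩ hv
      simp only [Finset.mem_product, Finset.mem_filter, Finset.mem_range, Finset.mem_univ,
        and_true] at hv
      refine ⟨toLex (⟨v, hv.1⟩, l), ?_, rfl⟩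
      simp only [NL, Finset.mem_filter, Finset.mem_univ, true_and]
      exact hv.2
  rw [h1, Finset.card_product, Finset.card_univ, Fintype.card_fin, mul_comm]

open Classical in
/-- the crossings which are new and end in the prescribed sets -/
noncomputable def Hits (Φ : ℕ → Finset (Fin n)) (y : World q n) : Finset (Fin N ×ₗ Fin s) :=
  Finset.univ.filter (Hit a g x Φ y)

lemma card_PT : (Finset.univ : Finset (Fin N ×ₗ Fin s)).card = s * N := by
  rw [Finset.card_univ]
  have : Fintype.card (Fin N ×ₗ Fin s) = Fintype.card (Fin N × Fin s) := rfl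
  rw [this, Fintype.card_prod, Fintype.card_fin, Fintype.card_fin, mul_comm]

open Classical in
/-- **many hits are rare**: the proportion of the worlds with at least `h` hits is at most
`binom(sN', h) (φ/(n-sN))^h`, `N'` the number of non-lazy slots -/
theorem hits_card (Φ : ℕ → Finset (Fin n)) (φ : ℕ) (hΦ : ∀ v, (Φ v).card ≤ φ) (h : ℕ) :
    ((Finset.univ : Finset (World q n)).filter
      (fun y => h ≤ (Hits (N := N) a g x Φ y).card)).card * (n - s * N) ^ h ≤
      (s * ((Finset.range N).filter (fun v => g v ≠ none)).card).choose h * φ ^ h *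
        (Finset.univ : Finset (World q n)).card := by
  have hsub : (Finset.univ : Finset (World q n)).filter
      (fun y => h ≤ (Hits (N := N) a g x Φ y).card) ⊆
      (Finset.powersetCard h (NL N s g)).biUnion
        (fun H => (Finset.univ : Finset (World q n)).filter (fun y => ∀ k ∈ H, Hit a g x Φ y k)) := by
    intro y hy
    simp only [Finset.mem_filter, Finset.mem_univ, true_and] at hy
    obtain ⟨H, hH1, hH2⟩ := Finset.exists_subset_card_eq hy
    simp only [Finset.mem_biUnion, Finset.mem_powersetCard,
      Finset.mem_filter, Finset.mem_univ, true_and]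
    have hH : ∀ k ∈ H, Hit a g x Φ y k := fun k hk => by
      have := hH1 hk
      simpa [Hits] using this
    refine ⟨H, ⟨fun k hk => ?_, hH2⟩, hH⟩
    obtain ⟨⟨m, hm, _⟩, _⟩ := hH k hk
    simp only [NL, Finset.mem_filter, Finset.mem_univ, true_and]
    rw [hm]
    simp
  calc ((Finset.univ : Finset (World q n)).filter
      (fun y => h ≤ (Hits (N := N) a g x Φ y).card)).card * (n - s * N) ^ h
      ≤ (∑ H ∈ Finset.powersetCard h (NL N s g),
        ((Finset.univ : Finset (World q n)).filter
          (fun y => ∀ k ∈ H, Hit a g x Φ y k)).card) * (n - s * N) ^ h :=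
        Nat.mul_le_mul_right _ ((Finset.card_le_card hsub).trans Finset.card_biUnion_le)
    _ = ∑ H ∈ Finset.powersetCard h (NL N s g),
        ((Finset.univ : Finset (World q n)).filter
          (fun y => ∀ k ∈ H, Hit a g x Φ y k)).card * (n - s * N) ^ h := Finset.sum_mul _ _ _
    _ ≤ ∑ H ∈ Finset.powersetCard h (NL N s g),
        φ ^ h * (Finset.univ : Finset (World q n)).card := by
        refine Finset.sum_le_sum fun H hH => ?_
        have hc : H.card = h := (Finset.mem_powersetCard.1 hH).2
        have := hits_fixed a g x Φ φ hΦ H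
        rw [hc] at this
        exact this
    _ = (s * ((Finset.range N).filter (fun v => g v ≠ none)).card).choose h * φ ^ h *
        (Finset.univ : Finset (World q n)).card := by
        rw [Finset.sum_const, Finset.card_powersetCard, card_NL, smul_eq_mul, mul_assoc]

end

section

variable {N s : ℕ} (a b : ℕ → Perm (Fin n)) (g : ℕ → Option (Lt q)) (x : Fin s → Fin n)

open Classical in
/-- every crossed edge has a first crossing -/
lemma card_used_le (y : World q n) :
    (Finset.univ.biUnion fun l : Fin s => usedSet (prog a g) y 0 (x l) (2 * N)).card ≤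
      (Finset.univ.filter (fun k : Fin N ×ₗ Fin s => New a g x y k)).card := by
  have hsub : (Finset.univ.biUnion fun l : Fin s => usedSet (prog a g) y 0 (x l) (2 * N)) ⊆
      (Finset.univ.filter (fun k : Fin N ×ₗ Fin s => New a g x y k)).biUnion
        (fun k => (eo a g x y k).toFinset) := by
    intro e he
    rw [Finset.mem_biUnion] at he
    obtain ⟨l, _, hl⟩ := he
    rw [mem_usedSet] at hl
    obtain ⟨v, hv, m, hm, hed⟩ := uses_odd hl
    have hvN : v < N := by omega
    let S : Finset (Fin N ×ₗ Fin s) := Finset.univ.filter (fun k => e ∈ (eo a g x y k).toFinset)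
    have hS : S.Nonempty := by
      refine ⟨toLex (⟨v, hvN⟩, l), ?_⟩
      simp only [S, Finset.mem_filter, Finset.mem_univ, true_and, eo, Option.mem_toFinset,
        Option.mem_def, Option.map_eq_some_iff]
      exact ⟨m, hm, hed⟩
    have hmin := Finset.min'_mem S hS
    set k := S.min' hS with hk
    have hke : e ∈ (eo a g x y k).toFinset := by
      simpa [S] using hmin
    rw [Finset.mem_biUnion]
    refine ⟨k, ?_, hke⟩
    simp only [Finset.mem_filter, Finset.mem_univ, true_and]
    simp only [eo, Option.mem_toFinset, Option.mem_def, Option.map_eq_some_iff] at hke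
    obtain ⟨m', hm', he'⟩ := hke
    refine ⟨m', hm', ?_⟩
    rw [he', mem_Kn]
    rintro ⟨k', hk', m'', hm'', he''⟩
    have hk'S : k' ∈ S := by
      simp only [S, Finset.mem_filter, Finset.mem_univ, true_and, eo, Option.mem_toFinset,
        Option.mem_def, Option.map_eq_some_iff]
      exact ⟨m'', hm'', he''⟩
    exact absurd (Finset.min'_le S k' hk'S) (not_le.2 (hk ▸ hk'))
  refine (Finset.card_le_card hsub).trans (Finset.card_biUnion_le.trans ?_)
  calc ∑ k ∈ Finset.univ.filter (fun k : Fin N ×ₗ Fin s => New a g x y k),
        (eo a g x y k).toFinset.card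
      ≤ ∑ k ∈ Finset.univ.filter (fun k : Fin N ×ₗ Fin s => New a g x y k), 1 := by
        refine Finset.sum_le_sum fun k _ => ?_
        rcases eo a g x y k with _ | e <;> simp
    _ = _ := by rw [Finset.sum_const, smul_eq_mul, mul_one]

open Classical in
/-- the non-lazy pairs (slot, token) for which the two paths of the token are together before the
slot -/
noncomputable def UN (N : ℕ) (y : World q n) : Finset (Fin N ×ₗ Fin s) :=
  Finset.univ.filter (fun k => g (ofLex k).1.val ≠ none ∧ qp a g x y k = qp b g x y k)

open Classical in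
/-- the non-lazy pairs (slot, token) for which the two paths of the token are together before the
slot and the constants after the slot keep them together -/
noncomputable def Adj (N : ℕ) (y : World q n) : Finset (Fin N ×ₗ Fin s) :=
  Finset.univ.filter (fun k => g (ofLex k).1.val ≠ none ∧ qp a g x y k = qp b g x y k ∧
    a ((ofLex k).1.val + 1) (rp a g x y k) = b ((ofLex k).1.val + 1) (rp a g x y k))

lemma rp_congr {y : World q n} {k : Fin N ×ₗ Fin s} (hg : g (ofLex k).1.val ≠ none)
    (h : qp a g x y k = qp b g x y k) : rp a g x y k = rp b g x y k := by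
  obtain ⟨m, hm⟩ := Option.ne_none_iff_exists'.1 hg
  rw [rp_eq a g x hm, rp_eq b g x hm, h]

open Classical in
/-- **counting adjacent pairs** -/
lemma UN_le_Adj (y : World q n) :
    2 * (UN a b g x N y).card ≤ (Adj a b g x N y).card + s * (N + 1) := by
  -- `UN \ Adj` injects into the complement of `UN` in `[0, N] × tokens`
  have h1 : ((UN a b g x N y).filter (fun k => k ∉ Adj a b g x N y)).card ≤
      (((Finset.range (N + 1)) ×ˢ (Finset.univ : Finset (Fin s))).filter
        (fun p => ∀ k ∈ UN a b g x N y, ((ofLex k).1.val, (ofLex k).2) ≠ p)).card := by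
    refine Finset.card_le_card_of_injOn (fun k => ((ofLex k).1.val + 1, (ofLex k).2)) ?_ ?_
    · intro k hk
      simp only [Finset.coe_filter, Set.mem_ofPred_eq] at hk
      obtain ⟨hk1, hk2⟩ := hk
      simp only [Finset.coe_filter, Finset.mem_product, Finset.mem_range, Finset.mem_univ, and_true,
        Set.mem_ofPred_eq]
      refine ⟨by have := (ofLex k).1.isLt; omega, ?_⟩
      intro k' hk' he
      simp only [Prod.mk.injEq] at he
      obtain ⟨he1, he2⟩ := he
      apply hk2
      simp only [UN, Finset.mem_filter, Finset.mem_univ, true_and] at hk1 hk'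
      simp only [Adj, Finset.mem_filter, Finset.mem_univ, true_and]
      refine ⟨hk1.1, hk1.2, ?_⟩
      have e1 : ∀ c : ℕ → Perm (Fin n), qp c g x y k' = c ((ofLex k).1.val + 1) (rp c g x y k) := by
        intro c
        unfold qp rp
        rw [he1, he2, pos_even_step]
        rfl
      have e2 := hk'.2
      rw [e1, e1, ← rp_congr a b g x hk1.1 hk1.2] at e2
      exact e2
    · intro k _ k' _ h
      simp only [Prod.mk.injEq] at h
      have h2 : ofLex k = ofLex k' := Prod.ext (Fin.ext (by omega)) h.2
      exact ofLex.injective h2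
  have h2 : (((Finset.range (N + 1)) ×ˢ (Finset.univ : Finset (Fin s))).filter
        (fun p => ∀ k ∈ UN a b g x N y, ((ofLex k).1.val, (ofLex k).2) ≠ p)).card +
      (UN a b g x N y).card ≤ s * (N + 1) := by
    have h3 : (UN a b g x N y).card =
        ((UN a b g x N y).image (fun k => ((ofLex k).1.val, (ofLex k).2))).card := by
      rw [Finset.card_image_of_injective]
      intro k k' h
      simp only [Prod.mk.injEq] at h
      have h2 : ofLex k = ofLex k' := Prod.ext (Fin.ext h.1) h.2
      exact ofLex.injective h2
    rw [h3, ← Finset.card_union_of_disjoint]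
    · have h4 : s * (N + 1) = ((Finset.range (N + 1)) ×ˢ (Finset.univ : Finset (Fin s))).card := by
        rw [Finset.card_product, Finset.card_range, Finset.card_univ, Fintype.card_fin, mul_comm]
      rw [h4]
      refine Finset.card_le_card (Finset.union_subset (Finset.filter_subset _ _) ?_)
      intro p hp
      rw [Finset.mem_image] at hp
      obtain ⟨k, _, rfl⟩ := hp
      simp only [Finset.mem_product, Finset.mem_range, Finset.mem_univ, and_true]
      have := (ofLex k).1.isLt
      omega
    · rw [Finset.disjoint_left]
      intro p hp hp'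
      rw [Finset.mem_image] at hp'
      obtain ⟨k, hk, rfl⟩ := hp'
      exact (Finset.mem_filter.1 hp).2 k hk rfl
  have h5 : (UN a b g x N y).card ≤ (Adj a b g x N y).card +
      ((UN a b g x N y).filter (fun k => k ∉ Adj a b g x N y)).card := by
    have := Finset.card_filter_add_card_filter_not (s := UN a b g x N y)
      (fun k => k ∈ Adj a b g x N y)
    have h6 : ((UN a b g x N y).filter (fun k => k ∈ Adj a b g x N y)).card ≤
        (Adj a b g x N y).card :=
      Finset.card_le_card (fun k hk => (Finset.mem_filter.1 hk).2)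
    omega
  omega

/-- the sets used for the split lemma: the common values of the constants after the slot `v`, unless
`v` is exceptional -/
noncomputable def PhiS (Bad : Finset ℕ) (v : ℕ) : Finset (Fin n) := by
  classical exact if v ∈ Bad then ∅ else Finset.univ.filter (fun p => a (v + 1) p = b (v + 1) p)

open Classical in
/-- adjacent pairs are hits, up to few exceptions -/
lemma Adj_le_Hits (y : World q n) (Bad : Finset ℕ) (e : ℕ)
    (he : s * ((Finset.range N).filter (fun v => g v ≠ none)).card ≤
      (Finset.univ.biUnion fun l : Fin s => usedSet (prog a g) y 0 (x l) (2 * N)).card + e) :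
    (Adj a b g x N y).card ≤ (Hits (N := N) a g x (PhiS a b Bad) y).card + e + s * Bad.card := by
  have h1 : Adj a b g x N y ⊆ (Hits (N := N) a g x (PhiS a b Bad) y ∪
      (NL N s g).filter (fun k => ¬ New a g x y k)) ∪
      Finset.univ.filter (fun k : Fin N ×ₗ Fin s => (ofLex k).1.val ∈ Bad) := by
    intro k hk
    simp only [Adj, Finset.mem_filter, Finset.mem_univ, true_and] at hk
    obtain ⟨hk1, hk2, hk3⟩ := hk
    simp only [Finset.mem_union, Finset.mem_filter, Finset.mem_univ, true_and, Hits, NL]
    by_cases hb : (ofLex k).1.val ∈ Bad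
    · exact Or.inr hb
    · by_cases hn : New a g x y k
      · refine Or.inl (Or.inl ⟨hn, ?_⟩)
        simp only [PhiS, hb, if_false, Finset.mem_filter, Finset.mem_univ, true_and]
        exact hk3
      · exact Or.inl (Or.inr ⟨hk1, hn⟩)
  have h2 := (Finset.card_le_card h1).trans ((Finset.card_union_le _ _).trans
    (Nat.add_le_add_right (Finset.card_union_le _ _) _))
  have h3 : ((NL N s g).filter (fun k => ¬ New a g x y k)).card ≤ e := by
    have h4 := Finset.card_filter_add_card_filter_not (s := NL N s g) (fun k => New a g x y k)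
    have h5 : (Finset.univ.filter (fun k : Fin N ×ₗ Fin s => New a g x y k)).card ≤
        ((NL N s g).filter (fun k => New a g x y k)).card := by
      refine Finset.card_le_card (fun k hk => ?_)
      simp only [Finset.mem_filter, Finset.mem_univ, true_and, NL] at hk ⊢
      refine ⟨?_, hk⟩
      obtain ⟨m, hm, _⟩ := hk
      rw [hm]
      simp
    have h6 := card_used_le (N := N) a g x y
    rw [card_NL] at h4
    omega
  have h7 : (Finset.univ.filter (fun k : Fin N ×ₗ Fin s => (ofLex k).1.val ∈ Bad)).card ≤
      s * Bad.card := by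
    have h8 : (Finset.univ.filter (fun k : Fin N ×ₗ Fin s => (ofLex k).1.val ∈ Bad)).card ≤
        (Bad ×ˢ (Finset.univ : Finset (Fin s))).card := by
      refine Finset.card_le_card_of_injOn (fun k => ((ofLex k).1.val, (ofLex k).2)) ?_ ?_
      · intro k hk
        simp only [Finset.coe_filter, Finset.mem_univ, true_and, Set.mem_ofPred_eq] at hk
        simp only [Finset.coe_product, Set.mem_prod, Finset.mem_coe, Finset.mem_univ, and_true]
        exact hk
      · intro k _ k' _ h
        simp only [Prod.mk.injEq] at h
        have h2 : ofLex k = ofLex k' := Prod.ext (Fin.ext h.1) h.2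
        exact ofLex.injective h2
    rw [Finset.card_product, Finset.card_univ, Fintype.card_fin, mul_comm] at h8
    exact h8
  omega

open Classical in
/-- **split lemma, adjacent form** (free parameters).  The constants `a (v+1)`, `b (v+1)` agree at
no more than `φ` places, for all `v < N` outside `Bad`.  Then the proportion of the worlds in which
the `s` paths of `prog a g` cross at least `s N' - e` distinct edges (`N'` the number of non-lazy
slots) and at least `h + e + s |Bad|` pairs (slot, token) are together before the slot and kept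
together by the constants after the slot is at most `binom(sN', h) (φ/(n-sN))^h`. -/
theorem mid_adj (Bad : Finset ℕ) (φ e h : ℕ)
    (hΦ : ∀ v, v ∉ Bad → (Finset.univ.filter (fun p => a (v + 1) p = b (v + 1) p)).card ≤ φ) :
    ((Finset.univ : Finset (World q n)).filter (fun y =>
      s * ((Finset.range N).filter (fun v => g v ≠ none)).card ≤
        (Finset.univ.biUnion fun l : Fin s => usedSet (prog a g) y 0 (x l) (2 * N)).card + e ∧
      h + e + s * Bad.card ≤ (Adj a b g x N y).card)).card * (n - s * N) ^ h ≤
      (s * ((Finset.range N).filter (fun v => g v ≠ none)).card).choose h * φ ^ h *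
        (Finset.univ : Finset (World q n)).card := by
  refine le_trans (Nat.mul_le_mul_right _ (Finset.card_le_card ?_))
    (hits_card a g x (N := N) (PhiS a b Bad) φ ?_ h)
  · intro y hy
    simp only [Finset.mem_filter, Finset.mem_univ, true_and] at hy ⊢
    have := Adj_le_Hits a b g x y Bad e hy.1
    omega
  · intro v
    by_cases hb : v ∈ Bad
    · simp [PhiS, hb]
    · simp only [PhiS, hb, if_false]
      exact hΦ v hb

open Classical in
/-- **split lemma** (free parameters): as `mid_adj`, with the number of the pairs (slot, token) which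
are together before the slot. -/
theorem mid_split (Bad : Finset ℕ) (φ e h : ℕ)
    (hΦ : ∀ v, v ∉ Bad → (Finset.univ.filter (fun p => a (v + 1) p = b (v + 1) p)).card ≤ φ) :
    ((Finset.univ : Finset (World q n)).filter (fun y =>
      s * ((Finset.range N).filter (fun v => g v ≠ none)).card ≤
        (Finset.univ.biUnion fun l : Fin s => usedSet (prog a g) y 0 (x l) (2 * N)).card + e ∧
      h + e + s * Bad.card + s * (N + 1) ≤ 2 * (UN a b g x N y).card)).card * (n - s * N) ^ h ≤
      (s * ((Finset.range N).filter (fun v => g v ≠ none)).card).choose h * φ ^ h *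
        (Finset.univ : Finset (World q n)).card := by
  refine le_trans (Nat.mul_le_mul_right _ (Finset.card_le_card ?_))
    (mid_adj a b g x (N := N) Bad φ e h hΦ)
  intro y hy
  simp only [Finset.mem_filter, Finset.mem_univ, true_and] at hy ⊢
  have := UN_le_Adj (N := N) a b g x y
  refine ⟨hy.1, by omega⟩

open Classical in
/-- the pairs which are together and the pairs which are split make up all non-lazy pairs -/
lemma card_UN_add (y : World q n) :
    (UN a b g x N y).card +
      (((Finset.range N) ×ˢ (Finset.univ : Finset (Fin s))).filter (fun p => g p.1 ≠ none ∧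
        pos (prog a g) y 0 (x p.2) (2 * p.1 + 1) ≠ pos (prog b g) y 0 (x p.2) (2 * p.1 + 1))).card =
      s * ((Finset.range N).filter (fun v => g v ≠ none)).card := by
  have h1 := Finset.card_filter_add_card_filter_not (s := NL N s g)
    (fun k => qp a g x y k = qp b g x y k)
  have h2 : (NL N s g).filter (fun k => qp a g x y k = qp b g x y k) = UN a b g x N y := by
    ext k
    simp only [NL, UN, Finset.mem_filter, Finset.mem_univ, true_and]
  have h3 : ((NL N s g).filter (fun k => ¬ qp a g x y k = qp b g x y k)).card =
      (((Finset.range N) ×ˢ (Finset.univ : Finset (Fin s))).filter (fun p => g p.1 ≠ none ∧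
        pos (prog a g) y 0 (x p.2) (2 * p.1 + 1) ≠
          pos (prog b g) y 0 (x p.2) (2 * p.1 + 1))).card := by
    refine Finset.card_bij (fun k _ => ((ofLex k).1.val, (ofLex k).2)) ?_ ?_ ?_
    · intro k hk
      simp only [NL, Finset.mem_filter, Finset.mem_univ, true_and] at hk
      simp only [Finset.mem_filter, Finset.mem_product, Finset.mem_range, Finset.mem_univ, and_true]
      exact ⟨(ofLex k).1.isLt, hk.1, hk.2⟩
    · intro k _ k' _ h
      simp only [Prod.mk.injEq] at h
      have h2 : ofLex k = ofLex k' := Prod.ext (Fin.ext h.1) h.2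
      exact ofLex.injective h2
    · rintro ⟨v, l⟩ hv
      simp only [Finset.mem_filter, Finset.mem_product, Finset.mem_range, Finset.mem_univ,
        and_true] at hv
      refine ⟨toLex (⟨v, hv.1⟩, l), ?_, rfl⟩
      simp only [NL, Finset.mem_filter, Finset.mem_univ, true_and]
      exact ⟨hv.2.1, hv.2.2⟩
  rw [h2, h3, card_NL] at h1
  exact h1

end

end Pool.Agent.Helper11.FS
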