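import Pool.Agent.Helper11.FS.Mid
import Pool.Agent.Helper1.TP.Goals

/-! Project FS (MP_75608d_al), final step: `S_SPB` of `Helper1/TP/Goals.lean`. -/

set_option linter.unusedVariables false

namespace Pool.Agent.Helper11.FS

open Equiv Pool.Agent.Helper4.FS Pool.Agent.Helper1.TP

variable {q n : ℕ} {N s : ℕ} (a b : ℕ → Perm (Fin n)) (g : ℕ → Option (Lt q))
  (x : Fin s → Fin n)

lemma crossed_eq (y : World q n) :
    (crossed y a g N x).ncard =
      (Finset.univ.biUnion fun l : Fin s => usedSet (prog a g) y 0 (x l) (2 * N)).card := by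
  have h : crossed y a g N x =
      ((Finset.univ.biUnion fun l : Fin s => usedSet (prog a g) y 0 (x l) (2 * N) :
        Finset (Fin q × Fin n)) : Set (Fin q × Fin n)) := by
    ext e
    simp only [crossed, Set.mem_ofPred_eq, Finset.coe_biUnion, Finset.coe_univ, Set.mem_univ,
      Set.iUnion_true, Set.mem_iUnion, Finset.mem_coe, mem_usedSet]
  rw [h, Set.ncard_coe_finset]

open Classical in
/-- the places of agreement after the good rounds -/
noncomputable def PhiR (N f : ℕ) (v : ℕ) : Finset (Fin n) :=
  if v < N ∧ g v ≠ none ∧ v ∉ badR a b g N f then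
    Finset.univ.filter (fun p => a (v + 1) p = b (v + 1) p) else ∅

lemma card_PhiR (f v : ℕ) : (PhiR a b g N f v).card ≤ f := by
  classical
  unfold PhiR
  split_ifs with h
  · obtain ⟨h1, h2, h3⟩ := h
    by_contra h4
    exact h3 (Finset.mem_filter.2 ⟨Finset.mem_range.2 h1, h2, fun h5 => h4 h5.2.2⟩)
  · simp

open Classical in
/-- almost all pairs are hits -/
lemma nl_le_Hits (y : World q n) (f F K1 D : ℕ) (hF : Fresh y a g N F x)
    (hK : nsplit y a b g N x ≤ K1) (hD : (badR a b g N f).card ≤ D) :
    s * nl g N ≤ (Hits (N := N) a g x (PhiR a b g N f) y).card + 2 * K1 + F + s * D := by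
  let S1 : Finset (Fin N ×ₗ Fin s) := (NL N s g).filter (fun k => qp a g x y k ≠ qp b g x y k)
  let S2 : Finset (Fin N ×ₗ Fin s) := (NL N s g).filter (fun k => (ofLex k).1.val + 1 < N ∧
    g ((ofLex k).1.val + 1) ≠ none ∧
    pos (prog a g) y 0 (x (ofLex k).2) (2 * ((ofLex k).1.val + 1) + 1) ≠
      pos (prog b g) y 0 (x (ofLex k).2) (2 * ((ofLex k).1.val + 1) + 1))
  let S3 : Finset (Fin N ×ₗ Fin s) := (NL N s g).filter (fun k => ¬ New a g x y k)
  let S4 : Finset (Fin N ×ₗ Fin s) :=
    Finset.univ.filter (fun k => (ofLex k).1.val ∈ badR a b g N f)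
  have hsub : NL N s g ⊆ (((Hits (N := N) a g x (PhiR a b g N f) y ∪ S1) ∪ S2) ∪ S3) ∪ S4 := by
    intro k hk
    by_cases h4 : (ofLex k).1.val ∈ badR a b g N f
    · exact Finset.mem_union_right _ (by simpa [S4] using h4)
    by_cases h3 : New a g x y k
    swap
    · exact Finset.mem_union_left _ (Finset.mem_union_right _ (Finset.mem_filter.2 ⟨hk, h3⟩))
    by_cases h1 : qp a g x y k = qp b g x y k
    swap
    · exact Finset.mem_union_left _ (Finset.mem_union_left _ (Finset.mem_union_left _
        (Finset.mem_union_right _ (Finset.mem_filter.2 ⟨hk, h1⟩))))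
    have hg : g (ofLex k).1.val ≠ none := by
      simpa [NL] using hk
    have hg1 : (ofLex k).1.val + 1 < N ∧ g ((ofLex k).1.val + 1) ≠ none := by
      by_contra h5
      exact h4 (Finset.mem_filter.2 ⟨Finset.mem_range.2 (ofLex k).1.isLt, hg,
        fun h6 => h5 ⟨h6.1, h6.2.1⟩⟩)
    by_cases h2 : pos (prog a g) y 0 (x (ofLex k).2) (2 * ((ofLex k).1.val + 1) + 1) =
      pos (prog b g) y 0 (x (ofLex k).2) (2 * ((ofLex k).1.val + 1) + 1)
    swap
    · exact Finset.mem_union_left _ (Finset.mem_union_left _
        (Finset.mem_union_right _ (Finset.mem_filter.2 ⟨hk, hg1.1, hg1.2, h2⟩)))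
    refine Finset.mem_union_left _ (Finset.mem_union_left _ (Finset.mem_union_left _
        (Finset.mem_union_left _ ?_)))
    simp only [Hits, Finset.mem_filter, Finset.mem_univ, true_and]
    refine ⟨h3, ?_⟩
    unfold PhiR
    rw [if_pos ⟨(ofLex k).1.isLt, hg, h4⟩]
    simp only [Finset.mem_filter, Finset.mem_univ, true_and]
    have hrr := rp_congr a b g x hg h1
    have e1 : ∀ c : ℕ → Perm (Fin n),
        pos (prog c g) y 0 (x (ofLex k).2) (2 * ((ofLex k).1.val + 1) + 1) =
          c ((ofLex k).1.val + 1) (rp c g x y k) := by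
      intro c
      unfold rp
      rw [pos_even_step]
      rfl
    rw [e1, e1, ← hrr] at h2
    exact h2
  have hinj : ∀ k k' : Fin N ×ₗ Fin s, (ofLex k).1.val = (ofLex k').1.val →
      (ofLex k).2 = (ofLex k').2 → k = k' := by
    intro k k' h1 h2
    have h3 : ofLex k = ofLex k' := Prod.ext (Fin.ext h1) h2
    exact ofLex.injective h3
  have c1 : S1.card ≤ K1 := by
    refine le_trans ?_ hK
    unfold nsplit hp
    refine Finset.card_le_card_of_injOn (fun k => ((ofLex k).2, (ofLex k).1.val)) ?_ ?_
    · intro k hk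
      simp only [S1, NL, Finset.coe_filter, Finset.mem_filter, Finset.mem_univ, true_and,
        Set.mem_ofPred_eq] at hk
      simp only [Finset.coe_filter, Finset.mem_product, Finset.mem_univ, Finset.mem_range,
        true_and, Set.mem_ofPred_eq]
      exact ⟨(ofLex k).1.isLt, hk.1, hk.2⟩
    · intro k _ k' _ h
      simp only [Prod.mk.injEq] at h
      exact hinj _ _ h.2 h.1
  have c2 : S2.card ≤ K1 := by
    refine le_trans ?_ hK
    unfold nsplit hp
    refine Finset.card_le_card_of_injOn (fun k => ((ofLex k).2, (ofLex k).1.val + 1)) ?_ ?_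
    · intro k hk
      simp only [S2, NL, Finset.coe_filter, Finset.mem_filter, Finset.mem_univ, true_and,
        Set.mem_ofPred_eq] at hk
      simp only [Finset.coe_filter, Finset.mem_product, Finset.mem_univ, Finset.mem_range,
        true_and, Set.mem_ofPred_eq]
      exact ⟨hk.2.1, hk.2.2.1, hk.2.2.2⟩
    · intro k _ k' _ h
      simp only [Prod.mk.injEq] at h
      exact hinj _ _ (by omega) h.1
  have c3 : S3.card ≤ F := by
    have h4 := Finset.card_filter_add_card_filter_not (s := NL N s g) (fun k => New a g x y k)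
    have h5 : (Finset.univ.filter (fun k : Fin N ×ₗ Fin s => New a g x y k)).card ≤
        ((NL N s g).filter (fun k => New a g x y k)).card := by
      refine Finset.card_le_card (fun k hk => ?_)
      simp only [Finset.mem_filter, Finset.mem_univ, true_and, NL] at hk ⊢
      refine ⟨?_, hk⟩
      obtain ⟨m, hm, _⟩ := hk
      rw [hm]
      simp
    have h6 := card_used_le (N := N) a g x y
    have h7 : s * nl g N ≤ (crossed y a g N x).ncard + F := hF
    rw [crossed_eq] at h7
    rw [card_NL] at h4
    have h8 : S3.card = ((NL N s g).filter (fun k => ¬ New a g x y k)).card := rfl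
    unfold nl at h7
    omega
  have c4 : S4.card ≤ s * D := by
    have h8 : S4.card ≤ ((badR a b g N f) ×ˢ (Finset.univ : Finset (Fin s))).card := by
      refine Finset.card_le_card_of_injOn (fun k => ((ofLex k).1.val, (ofLex k).2)) ?_ ?_
      · intro k hk
        simp only [S4, Finset.coe_filter, Finset.mem_univ, true_and, Set.mem_ofPred_eq] at hk
        simp only [Finset.coe_product, Set.mem_prod, Finset.mem_coe, Finset.mem_univ, and_true]
        exact hk
      · intro k _ k' _ h
        simp only [Prod.mk.injEq] at h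
        exact hinj _ _ h.1 h.2
    rw [Finset.card_product, Finset.card_univ, Fintype.card_fin, mul_comm] at h8
    exact h8.trans (Nat.mul_le_mul_left _ hD)
  have h0 : s * nl g N = (NL N s g).card := by
    rw [card_NL]
    rfl
  have h9 := Finset.card_le_card hsub
  have u1 := Finset.card_union_le (((Hits (N := N) a g x (PhiR a b g N f) y ∪ S1) ∪ S2) ∪ S3) S4
  have u2 := Finset.card_union_le ((Hits (N := N) a g x (PhiR a b g N f) y ∪ S1) ∪ S2) S3
  have u3 := Finset.card_union_le (Hits (N := N) a g x (PhiR a b g N f) y ∪ S1) S2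
  have u4 := Finset.card_union_le (Hits (N := N) a g x (PhiR a b g N f) y) S1
  omega

/-- **SPB**, the split lemma for the middle levels -/
theorem spb : S_SPB := by
  classical
  intro q n N s F D K1 R f g a b x _ hn hD hR
  have hW : (Finset.univ : Finset (World q n)).card = n.factorial ^ q := by
    rw [Finset.card_univ, Fintype.card_fun, Fintype.card_fin, Fintype.card_perm, Fintype.card_fin]
  have h1 := hits_card (N := N) a g x (PhiR a b g N f) f (card_PhiR a b g f) R
  rw [hW] at h1
  set A := ((Finset.univ : Finset (World q n)).filter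
      (fun y => R ≤ (Hits (N := N) a g x (PhiR a b g N f) y).card)).card with hA
  have h2 : Nat.card {y : World q n // Fresh y a g N F x ∧ nsplit y a b g N x ≤ K1} ≤ A := by
    rw [Nat.card_eq_fintype_card, Fintype.card_subtype, hA]
    refine Finset.card_le_card (fun y hy => ?_)
    simp only [Finset.mem_filter, Finset.mem_univ, true_and] at hy ⊢
    have := nl_le_Hits a b g x y f F K1 D hy.1 hy.2 hD
    omega
  have h3 : (A : ℝ) * ((n : ℝ) - s * N) ^ R ≤
      ((s * nl g N).choose R : ℝ) * (f : ℝ) ^ R * (n.factorial : ℝ) ^ q := by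
    have h4 : ((n - s * N : ℕ) : ℝ) = (n : ℝ) - s * N := by
      rw [Nat.cast_sub hn.le]
      push_cast
      ring
    rw [← h4]
    exact_mod_cast h1
  have hpos : (0 : ℝ) < (n : ℝ) - s * N := by
    have : ((s * N : ℕ) : ℝ) < (n : ℝ) := by exact_mod_cast hn
    push_cast at this
    linarith
  have hpos' : (0 : ℝ) < ((n : ℝ) - s * N) ^ R := pow_pos hpos R
  calc (Nat.card {y : World q n // Fresh y a g N F x ∧ nsplit y a b g N x ≤ K1} : ℝ)
      ≤ (A : ℝ) := by exact_mod_cast h2
    _ ≤ ((s * nl g N).choose R : ℝ) * (f : ℝ) ^ R * (n.factorial : ℝ) ^ q /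
        ((n : ℝ) - s * N) ^ R := by
        rw [le_div_iff₀ hpos']
        exact h3
    _ = ((s * nl g N).choose R : ℝ) * ((f : ℝ) / ((n : ℝ) - s * N)) ^ R *
        (n.factorial : ℝ) ^ q := by
        rw [div_pow]
        ring

end Pool.Agent.Helper11.FS
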